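import Pool.Agent.H99.Rains

namespace Pool.Agent.Results.MP_321bb7_mp.Counter

open Pool.Agent.H99.RainsDefs Pool.Agent.H99.Rains

theorem result : ∃ D : Data, D.AnomalyFree ∧ D.NonChiral ∧ D.NoSinglets ∧
    (∃ x : ℝ, D.rains x < 0) ∧ D.trR < 0 :=
  ⟨D, D_anom, D_nonchiral, D_nos, ⟨1 / 2, by rw [D_half]; norm_num⟩, by rw [D_trR]; norm_num⟩

end Pool.Agent.Results.MP_321bb7_mp.Counter
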